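import Pool.Agent.W558.WT.Stms

/-!
Project WT (helper558): fractions of invariants.
-/

set_option autoImplicit false

universe u

namespace Pool.Agent.W376.WT

open Pool.Agent.W558

theorem main : WT_fri.{u} := by
  intro k B E _ _ _ _ _ _ _ _ _ Γ _ _ s τ hs hτ y hy
  classical
  have := Fintype.ofFinite Γ
  have hinj : Function.Injective (algebraMap B E) := IsFractionRing.injective B E
  obtain ⟨a₀, b₀, hb₀, rfl⟩ := IsFractionRing.div_surjective (A := B) y
  have hb0 : b₀ ≠ 0 := nonZeroDivisors.ne_zero hb₀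
  have h0 : s 0 b₀ = b₀ := by
    have h1 := hs 0 0 b₀
    rw [add_zero] at h1
    exact ((s 0).injective h1).symm
  have hb' : algebraMap B E b₀ ≠ 0 := by
    intro h
    exact hb0 (hinj (by rw [h, map_zero]))
  set N : B := ∏ g, s g b₀ with hN
  set b' : B := ∏ g ∈ Finset.univ.erase (0 : Γ), s g b₀ with hb''
  have hNb : N = b₀ * b' := by
    rw [hN, hb'', ← Finset.mul_prod_erase Finset.univ _ (Finset.mem_univ (0 : Γ)), h0]
  have hNi : ∀ g, s g N = N := by
    intro g
    rw [hN, map_prod]
    exact Fintype.prod_equiv (Equiv.addLeft g) _ _ fun g' => (hs g g' b₀).symm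
  have hyN : algebraMap B E a₀ / algebraMap B E b₀ * algebraMap B E N =
      algebraMap B E (a₀ * b') := by
    rw [hNb, map_mul, map_mul]
    field_simp
  refine ⟨a₀ * b', N, fun g => ?_, hNi, ?_, hyN⟩
  · apply hinj
    rw [← hτ, ← hyN, map_mul, hy, hτ, hNi]
  · rw [hN]
    exact Finset.prod_ne_zero_iff.2 fun g _ => by
      rw [Ne, EmbeddingLike.map_eq_zero_iff]
      exact hb0

end Pool.Agent.W376.WT
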