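import Pool.Agent.W312.WT.Stm

/-!
The swap inequality.
-/

set_option autoImplicit false

namespace Pool.Agent.W376.WT

theorem proof_SSwp : Pool.Agent.W312.WT.SSwp := by
  intro w w' d d' t₁ t₂ hw ht hd
  obtain ⟨a, ha⟩ : ∃ a, t₂ - d = (t₁ - d) + a := ⟨(t₂ - d) - (t₁ - d), by omega⟩
  obtain ⟨b, hb⟩ : ∃ b, t₂ - d' = (t₁ - d') + b := ⟨(t₂ - d') - (t₁ - d'), by omega⟩
  have hab : a ≤ b := by omega
  rw [ha, hb]
  have h1 : w * a ≤ w' * b := Nat.mul_le_mul hw hab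
  calc w' * (t₁ - d') + w * (t₁ - d + a) = w' * (t₁ - d') + w * (t₁ - d) + w * a := by ring
    _ ≤ w' * (t₁ - d') + w * (t₁ - d) + w' * b := Nat.add_le_add_left h1 _
    _ = _ := by ring

end Pool.Agent.W376.WT
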